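import Pool.Agent.W102.TD.Defs

set_option autoImplicit false

namespace Pool.Agent.W131.TD
open Pool.Agent.W102.TD

theorem high {m t k : ℕ} (h : t < 2 ^ m) (hk : m ≤ k) : t.testBit k = false :=
  Nat.testBit_lt_two_pow (h.trans_le (Nat.pow_le_pow_right (by norm_num) hk))

theorem bits_length (m t : ℕ) : (bits m t).length = m := by
  unfold bits
  rw [List.length_map, List.length_range]

theorem true_mem {m t : ℕ} (h0 : 0 < t) (h : t < 2 ^ m) : true ∈ bits m t := by
  by_contra hcon
  have h1 : t = 0 := by
    apply Nat.eq_of_testBit_eq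
    intro k
    rw [Nat.zero_testBit]
    rcases lt_or_ge k m with hk | hk
    · cases h2 : t.testBit k with
      | false => rfl
      | true =>
        exact absurd (List.mem_map.2 ⟨k, List.mem_range.2 hk, h2⟩) hcon
    · exact high h hk
  omega

theorem false_mem {m t : ℕ} (h : t < 2 ^ m - 1) : false ∈ bits m t := by
  by_contra hcon
  have h1 : t = 2 ^ m - 1 := by
    apply Nat.eq_of_testBit_eq
    intro k
    rw [Nat.testBit_two_pow_sub_one]
    rcases lt_or_ge k m with hk | hk
    · cases h2 : t.testBit k with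
      | true => exact (decide_eq_true hk).symm
      | false =>
        exact absurd (List.mem_map.2 ⟨k, List.mem_range.2 hk, h2⟩) hcon
    · rw [high (by omega) hk]
      exact (decide_eq_false (by omega)).symm
  omega

theorem TDASM (h1 : COUNT) (h2 : LOOP) : ∀ m, TuDeng m := by
  intro m t ht0 ht
  have h3 := h1 m t ht0 ht
  have h4 := h2 (bits m t) (true_mem ht0 (by omega)) (false_mem ht)
  rw [bits_length] at h4
  have hm : m ≠ 0 := by
    rintro rfl
    simp at ht
  obtain ⟨k, rfl⟩ := Nat.exists_eq_succ_of_ne_zero hm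
  have h5 : 2 ^ (k.succ) = 2 * 2 ^ (k.succ - 1) := by
    rw [Nat.succ_sub_one, pow_succ, mul_comm]
  rw [h5] at h4
  have h6 := Nat.le_of_mul_le_mul_left h4 (by norm_num : 0 < 2)
  exact h3.trans h6

end Pool.Agent.W131.TD
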